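import Pool.Agent.H88.MCR.Stmts2

/-!
Board mcr (helper88, MP_ffb5eb_co), row OR2: order the vertices, the cycle first.
-/

set_option autoImplicit false

namespace Pool.MCR

open SimpleGraph

theorem or2_thm (hORA : ORA_S) (hORB : ORB_S) : OR2_S := by
  classical
  intro V _ F e0 he0 hac hnac hcyc
  obtain ⟨T, m, c, hT, hm3, hm4, hcinj, hconn, hcadj, hF⟩ := hORB V F e0 he0 hac hnac hcyc
  have hmN : m ≤ Fintype.card V := by
    have := Fintype.card_le_of_injective c hcinj
    rwa [Fintype.card_fin] at this
  have key : ∀ n, m ≤ n → n ≤ Fintype.card V → ∃ (g : ℕ → V) (p : ℕ → ℕ),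
      (∀ i j, i < n → j < n → g i = g j → i = j) ∧ (∀ i : Fin m, g i = c i) ∧
      (T.induce (g '' {i | i < n})).Connected ∧ (∀ i, 1 ≤ i → p i < i) ∧
      ∀ i j, i < n → j < i → m ≤ i → T.Adj (g i) (g j) → j = p i := by
    intro n hmn
    induction n, hmn using Nat.le_induction with
    | base =>
      intro _
      let g : ℕ → V := fun i => if h : i < m then c ⟨i, h⟩ else c ⟨0, by omega⟩
      have hg : ∀ (i : ℕ) (h : i < m), g i = c ⟨i, h⟩ := fun i h => dif_pos h
      have hr : g '' {i | i < m} = Set.range c := by
        ext v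
        constructor
        · rintro ⟨i, hi, rfl⟩
          exact ⟨⟨i, hi⟩, (hg i hi).symm⟩
        · rintro ⟨i, rfl⟩
          exact ⟨i, i.2, hg i i.2⟩
      refine ⟨g, fun _ => 0, ?_, ?_, ?_, ?_, ?_⟩
      · intro i j hi hj hij
        rw [hg i hi, hg j hj] at hij
        exact congrArg Fin.val (hcinj hij)
      · intro i
        exact hg i i.2
      · rw [hr]
        exact hconn
      · intro i hi
        exact hi
      · intro i j hi _ hmi _
        omega
    | succ n hmn ih =>
      intro hnN
      obtain ⟨g, p, hinj, hgc, hcon, hp, hadj⟩ := ih (by omega)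
      have hS : g '' {i | i < n} ≠ Set.univ := by
        intro h
        have h1 : Set.SurjOn g {i | i < n} Set.univ := by
          intro v hv
          rw [← h] at hv
          exact hv
        have h2 : Function.Surjective (fun i : Fin n => g i) := by
          intro v
          obtain ⟨i, hi, hiv⟩ := h1 (Set.mem_univ v)
          exact ⟨⟨i, hi⟩, hiv⟩
        have h3 := Fintype.card_le_of_surjective _ h2
        rw [Fintype.card_fin] at h3
        omega
      obtain ⟨v, hv, ⟨u, ⟨k, hk, hku⟩, hvu, huniq⟩, hcon'⟩ := hORA V T _ hT hcon hS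
      have hk' : k < n := hk
      have hg1 : ∀ i, i < n → Function.update g n v i = g i := by
        intro i hi
        exact Function.update_of_ne (by omega) _ _
      have hg2 : Function.update g n v n = v := Function.update_self _ _ _
      have hp1 : ∀ i, i ≠ n → Function.update p n k i = p i := by
        intro i hi
        exact Function.update_of_ne hi _ _
      have hp2 : Function.update p n k n = k := Function.update_self _ _ _
      refine ⟨Function.update g n v, Function.update p n k, ?_, ?_, ?_, ?_, ?_⟩
      · intro i j hi hj hij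
        rcases Nat.lt_succ_iff_lt_or_eq.1 hi with hi' | hi' <;>
          rcases Nat.lt_succ_iff_lt_or_eq.1 hj with hj' | hj'
        · rw [hg1 i hi', hg1 j hj'] at hij
          exact hinj i j hi' hj' hij
        · rw [hg1 i hi', hj', hg2] at hij
          exact absurd ⟨i, hi', hij⟩ hv
        · rw [hg1 j hj', hi', hg2] at hij
          exact absurd ⟨j, hj', hij.symm⟩ hv
        · rw [hi', hj']
      · intro i
        rw [hg1 i (by have := i.2; omega)]
        exact hgc i
      · have h1 : Function.update g n v '' {i | i < n + 1} = insert v (g '' {i | i < n}) := by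
          ext w
          constructor
          · rintro ⟨i, hi, rfl⟩
            rcases Nat.lt_succ_iff_lt_or_eq.1 hi with hi' | hi'
            · right
              exact ⟨i, hi', (hg1 i hi').symm⟩
            · left
              rw [hi', hg2]
          · rintro (rfl | ⟨i, hi, rfl⟩)
            · exact ⟨n, Nat.lt_succ_self n, hg2⟩
            · exact ⟨i, Nat.lt_succ_of_lt hi, hg1 i hi⟩
        rw [h1]
        exact hcon'
      · intro i hi
        by_cases hin : i = n
        · rw [hin, hp2]
          exact hk'
        · rw [hp1 i hin]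
          exact hp i hi
      · intro i j hi hj hmi h
        rcases Nat.lt_succ_iff_lt_or_eq.1 hi with hi' | hi'
        · rw [hg1 i hi', hg1 j (by omega)] at h
          rw [hp1 i (by omega)]
          exact hadj i j hi' hj hmi h
        · subst hi'
          rw [hg2, hg1 j hj] at h
          rw [hp2]
          have h1 := huniq (g j) ⟨j, hj, rfl⟩ h
          rw [← hku] at h1
          exact hinj j k hj hk' h1
  obtain ⟨g, p, hinj, hgc, _, hp, hadj⟩ := key _ hmN le_rfl
  have hbij : Function.Bijective (fun i : Fin (Fintype.card V) => g i) := by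
    rw [Fintype.bijective_iff_injective_and_card]
    refine ⟨?_, Fintype.card_fin _⟩
    intro i j hij
    exact Fin.ext (hinj i j i.2 j.2 hij)
  let e : V ≃ Fin (Fintype.card V) := (Equiv.ofBijective _ hbij).symm
  have hge : ∀ x, g (e x) = x := by
    intro x
    exact (Equiv.ofBijective _ hbij).apply_symm_apply x
  have hec : ∀ i : Fin m, (e (c i) : ℕ) = i := by
    intro i
    have h1 : g (e (c i)) = g i := by rw [hge, hgc]
    exact hinj _ _ (e (c i)).2 (lt_of_lt_of_le i.2 hmN) h1
  have hmain : ∀ x y, T.Adj x y → (e y : ℕ) < e x →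
      uniT m p (e x) (e y) ∨ uniT m p (e y) (e x) := by
    intro x y hxy hlt
    by_cases hmi : m ≤ (e x : ℕ)
    · left
      right
      refine ⟨hmi, by omega, ?_⟩
      apply hadj _ _ (e x).2 hlt hmi
      rw [hge, hge]
      exact hxy
    · right
      left
      left
      have hx : c ⟨e x, by omega⟩ = x := by rw [← hgc]; exact hge x
      have hy : c ⟨e y, by omega⟩ = y := by rw [← hgc]; exact hge y
      have h1 : T.Adj (c ⟨e x, by omega⟩) (c ⟨e y, by omega⟩) := by
        rw [hx, hy]
        exact hxy
      have h2 := (hcadj _ _).1 h1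
      simp only at h2
      omega
  refine ⟨m, e, p, hm3, hm4, hmN, hp, ?_⟩
  intro x y hxy
  rcases hF x y hxy with h | ⟨i, j, hi, hj, h⟩
  · rcases lt_trichotomy (e y : ℕ) (e x : ℕ) with h1 | h1 | h1
    · exact hmain x y h h1
    · exact absurd (e.injective (Fin.ext h1)) h.ne'
    · exact (hmain y x h.symm h1).symm
  · rcases h with ⟨hx, hy⟩ | ⟨hx, hy⟩
    · right
      left
      right
      rw [hx, hy, hec, hec]
      exact ⟨hj, hi, hm3⟩
    · left
      left
      right
      rw [hx, hy, hec, hec]
      exact ⟨hj, hi, hm3⟩

end Pool.MCR
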